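import Pool.Agent.H757.TB3.Alt

/-!
# Fox's trapezoidal conjecture for closures of alternating 3-braids

Oriented link diagrams (`OWord`), their isotopy (`OIsotopic`: planar isotopy and the Reidemeister
moves), the Conway polynomial (`IsConway`) and the Alexander polynomial (`IsAlexander`, a Laurent
polynomial in `s = t^{1/2}`) are those of the library of earlier results.
-/

namespace Pool.Agent.Results.MP_bb8a0f_gt.AlternatingThreeBraids

open Pool.Agent.Helper454.Wh
open Q174.TBD
open Pool.Agent.H757.TB3

/-- `K` is a diagram of the closure of an alternating 3-braid in which both generators occur: it is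
isotopic to the closed braid diagram of a word in `σ₁, σ₂⁻¹` (`ε = false`) or in `σ₁⁻¹, σ₂`
(`ε = true`) which contains both letters. -/
def IsClosedAlternatingThreeBraid (K : OWord) : Prop :=
  ∃ (ε : Bool) (w : List Bool), true ∈ w ∧ false ∈ w ∧ OIsotopic K (closure (altWord ε w))

/-- The Conway polynomial exists, and the Alexander polynomial of every closure of an alternating
3-braid (with both generators) has the shape predicted by Fox. -/
theorem result : (∃ Λ : OWord → LaurentPolynomial ℤ, IsConway Λ) ∧
    ∀ Λ : OWord → LaurentPolynomial ℤ, IsConway Λ →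
      ∀ K : OWord, IsClosedAlternatingThreeBraid K →
        ∃ Δ : LaurentPolynomial ℤ, IsAlexander Λ K Δ ∧ FoxShape Δ := by
  refine ⟨exists_conway, fun Λ hΛ K hK => ?_⟩
  obtain ⟨ε, w, hA, hB, hiso⟩ := hK
  obtain ⟨Δ, ⟨P, hP, hD⟩, hF⟩ := fox_closure hΛ ε hA hB
  exact ⟨Δ, ⟨P, by rw [hΛ.1.isotopy _ _ hiso, hP], hD⟩, hF⟩

end Pool.Agent.Results.MP_bb8a0f_gt.AlternatingThreeBraids
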